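import Mathlib
import Pool.Agent.Lib.MP_eb2336_co.Statement
import Pool.Agent.Lib.MP_eb2336_co.Sampling
import Pool.Agent.Lib.MP_eb2336_co.FlatCase
import Pool.Agent.Lib.MP_eb2336_co.Model

/-!
# MP_eb2336_co, Q1 : locked fixed-angle chains with nearly equal link lengths (answer: yes)

For every `α ∈ (0, π/2]` there are a number `n` of links and `ε₀ > 0` such that for **every**
`ε ∈ (0, ε₀)` there is a fixed-angle `(≤ α)`-chain with `n` links, all turn angles positive, length
ratio exactly `1 + ε`, which has a locked configuration.

Proof idea: a configuration whose two end parts are long and almost straight (needles) is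
completed by radial rays to a long curve; the homeomorphism type of its complement is invariant
under motions (small Lipschitz perturbations of curves extend to homeomorphisms of `ℝ³`).  For a
flat configuration the complement has commutative fundamental group (van Kampen), while the curve
obtained by sampling the long algebraic trefoil `z₁³ = z₂²` at unit chords has a complement with
non-commutative fundamental group (monodromy of the roots of `x³ - 3 z₁ x + 2 z₂`).
-/

noncomputable section

open Set MPeb2336

namespace Pool.Agent.Results.MP_eb2336_co.NearlyEquilateralLocked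

/-- **Q1, affirmative answer** (for all sufficiently small `ε`, with all turn angles positive). -/
theorem result (α : ℝ) (hα : 0 < α) (hα' : α ≤ Real.pi / 2) :
    ∃ n : ℕ, ∃ ε₀ : ℝ, 0 < ε₀ ∧ ∀ ε : ℝ, 0 < ε → ε < ε₀ →
      ∃ (ℓ θ : ℕ → ℝ) (q : ℕ → E3),
        (∀ i < n, 0 < ℓ i) ∧ (∀ i, 1 ≤ i → i < n → 0 < θ i ∧ θ i ≤ α) ∧
        HasLengthRatio n ℓ (1 + ε) ∧ Locked n ℓ θ q := by
  obtain ⟨V, c, C, S, hG⟩ := exists_goodModel
  exact main_of_model
    (fun hc hN hM hlip hbi => exists_half_sampling hc hN hM hlip hbi)
    (fun F h1 h2 h3 h4 h5 => commCompl_of_flat F h1 h2 h3 h4 h5) hG hα hα'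

end Pool.Agent.Results.MP_eb2336_co.NearlyEquilateralLocked
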